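import Pool.Agent.H29.LA.Targets
import Pool.Agent.H25.LS.Char

/-!
# Row CHR: the quadratic characters (MP_6b5a9a_nt)
-/

set_option autoImplicit false

open AlgebraicGeometry CategoryTheory Polynomial IntermediateField
open scoped MonObj TensorProduct WithZero
open Pool.H27.LG2
open Pool.Agent.H29.LA

noncomputable section

namespace Pool.Agent.H91.LA

theorem primRoot_neg_one (M : Type) [Field M] (h2 : (2 : M) ≠ 0) :
    IsPrimitiveRoot (-1 : M) 2 := by
  refine ⟨by norm_num, fun l hl => ?_⟩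
  by_contra hodd
  have ho : Odd l := Nat.not_even_iff_odd.1 fun he => hodd he.two_dvd
  rw [ho.neg_one_pow] at hl
  apply h2
  have h3 : (1 : M) + 1 = 0 := by
    nth_rewrite 1 [← hl]
    exact neg_add_cancel 1
  rw [← h3]
  norm_num

theorem sq_eq_one (a : Multiplicative (ZMod 2)) : a ^ 2 = 1 := by
  apply Multiplicative.toAdd.injective
  rw [toAdd_pow, toAdd_one, nsmul_eq_mul, ZMod.natCast_self, zero_mul]

theorem pf_CHR : T_CHR := by
  classical
  intro F Ω _ _ _ _ _ M _ _ Γ hΓ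
  by_cases h2F : (2 : F) = 0
  · exact ⟨Multiplicative (ZMod 2), inferInstance, inferInstance, 1, sq_eq_one,
      fun h => absurd h2F h⟩
  have h2M : (2 : M) ≠ 0 := by
    intro h
    apply h2F
    apply (algebraMap F M).injective
    rw [map_ofNat, h, map_zero]
  have h2Ω : ((2 : ℕ) : Ω) ≠ 0 := by
    intro h
    apply h2F
    apply (algebraMap F Ω).injective
    rw [map_ofNat, map_zero]
    exact_mod_cast h
  let res : (Ω ≃ₐ[F] Ω) →* (M ≃ₐ[F] M) := AlgEquiv.restrictNormalHom M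
  have hres : ∀ (g : Ω ≃ₐ[F] Ω) (m : M), ((res g m : M) : Ω) = g m := fun g m =>
    AlgEquiv.restrictNormalHom_apply M g m
  have hres1 : ∀ g : Ω ≃ₐ[F] Ω, res g = 1 ↔ ∀ m : M, g m = m := by
    intro g
    constructor
    · intro h m
      rw [← hres, h]; rfl
    · intro h
      ext m
      rw [hres, h]; rfl
  set K : Subgroup Γ := (res.comp Γ.subtype).ker with hK
  have hKmem : ∀ g : Γ, g ∈ K ↔ ∀ m : M, (g : Ω ≃ₐ[F] Ω) m = m := by
    intro g
    rw [hK, MonoidHom.mem_ker]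
    exact hres1 g
  have hKfi : K.FiniteIndex := by
    have : Finite (Γ ⧸ K) :=
      Finite.of_equiv _ (QuotientGroup.quotientKerEquivRange (res.comp Γ.subtype)).symm.toEquiv
    exact Subgroup.finiteIndex_of_finite_quotient
  have hΓfg : Group.FG Γ := (Group.fg_iff_subgroup_fg Γ).2 hΓ
  have hKfg : Group.FG K := Subgroup.fg_of_index_ne_zero _
  obtain ⟨S, hS⟩ := (Group.fg_iff_subgroup_fg K).1 hKfg
  have hSK : ∀ s ∈ S, ∀ m : M, (s : Ω ≃ₐ[F] Ω) m = m := by
    intro s hs m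
    have h1 : s ∈ K := by rw [← hS]; exact Subgroup.subset_closure hs
    exact (hKmem s).1 h1 m
  have hch : ∀ s : S, ∃ ρ : Mˣ →* Multiplicative (ZMod 2), ∀ d : Mˣ, ρ d = 1 → ∀ u : Ω,
      u ^ 2 = algebraMap M Ω d → ((s : Γ) : Ω ≃ₐ[F] Ω) u = u := by
    intro s
    exact Pool.Agent.H25.LS.exists_char M Ω 2 (-1) (primRoot_neg_one M h2M) h2Ω
      (IntermediateField.fixingSubgroupEquiv M
        ⟨((s : Γ) : Ω ≃ₐ[F] Ω), fun m => hSK s s.2 m⟩)
  choose ρ' hρ' using hch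
  refine ⟨S → Multiplicative (ZMod 2), inferInstance, inferInstance, MonoidHom.pi ρ',
    fun a => _root_.funext fun i => sq_eq_one _, fun _ d hd u hu g hg hgM => ?_⟩
  have h1 : (⟨g, hg⟩ : Γ) ∈ K := (hKmem _).2 hgM
  have h2 : K ≤ (MulAction.stabilizer (Ω ≃ₐ[F] Ω) u).comap Γ.subtype := by
    rw [← hS, Subgroup.closure_le]
    intro s hs
    have h3 : ρ' ⟨s, hs⟩ d = 1 := congrFun hd ⟨s, hs⟩
    exact hρ' ⟨s, hs⟩ d h3 u hu
  exact h2 h1

end Pool.Agent.H91.LA
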