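import Pool.Agent.H29.LA.Targets
import Pool.Agent.H27.LG.FieldL2

/-!
# Row FLD: the field of definition (MP_6b5a9a_nt)
-/

set_option autoImplicit false

open AlgebraicGeometry CategoryTheory
open scoped MonObj TensorProduct
open Pool.H27.LG
open Pool.Agent.H29.LA

noncomputable section

namespace Pool.Agent.H91.LA

section

variable {F K : Type} [Field F] [Field K] [Algebra F K]
  (f : Polynomial (Polynomial K)) (h : Polynomial K)

omit [Field F] [Algebra F K] in
theorem ev_root (x z : K) (hz : (fib f x).eval z = 0) : ev f x z hz (AdjoinRoot.root f) = z := by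
  unfold ev
  rw [AdjoinRoot.liftAlgHom_root]

omit [Field F] [Algebra F K] in
theorem ev_of (x z : K) (hz : (fib f x).eval z = 0) (p : Polynomial K) :
    ev f x z hz (AdjoinRoot.of f p) = p.eval x := by
  unfold ev
  rw [AdjoinRoot.liftAlgHom_of, Polynomial.coe_aeval_eq_eval]

omit [Field F] [Algebra F K] in
theorem evh_algebraMap (x z : K) (hz : (fib f x).eval z = 0) (hx : h.eval x ≠ 0)
    (w : AdjoinRoot f) : evh f h x z hz hx (algebraMap _ _ w) = ev f x z hz w := by
  unfold evh
  exact IsLocalization.lift_eq _ w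

/-- the values of the function `w` are equivariant over a finite extension -/
def GF (F : Type) {K : Type} [Field F] [Field K] [Algebra F K] (f : Polynomial (Polynomial K))
    (w : AdjoinRoot f) : Prop :=
  ∃ L : IntermediateField F K, FiniteDimensional F L ∧
    ∀ τ ∈ L.fixingSubgroup, ∀ (x z : K) (hz : (fib f x).eval z = 0)
      (hz' : (fib f (τ x)).eval (τ z) = 0), τ (ev f x z hz w) = ev f (τ x) (τ z) hz' w

variable {f}

theorem GF.add {a b : AdjoinRoot f} (ha : GF F f a) (hb : GF F f b) : GF F f (a + b) := by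
  obtain ⟨L, hL, h1⟩ := ha
  obtain ⟨L', hL', h2⟩ := hb
  refine ⟨L ⊔ L', inferInstance, ?_⟩
  intro τ hτ x z hz hz'
  rw [map_add, map_add, map_add, h1 τ (fix_sup_left hτ) x z hz hz',
    h2 τ (fix_sup_right hτ) x z hz hz']

theorem GF.mul {a b : AdjoinRoot f} (ha : GF F f a) (hb : GF F f b) : GF F f (a * b) := by
  obtain ⟨L, hL, h1⟩ := ha
  obtain ⟨L', hL', h2⟩ := hb
  refine ⟨L ⊔ L', inferInstance, ?_⟩
  intro τ hτ x z hz hz'
  rw [map_mul, map_mul, map_mul, h1 τ (fix_sup_left hτ) x z hz hz',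
    h2 τ (fix_sup_right hτ) x z hz hz']

theorem GF.one : GF F f 1 := by
  refine ⟨⊥, inferInstance, ?_⟩
  intro τ _ x z hz hz'
  rw [map_one, map_one, map_one]

theorem GF.pow {a : AdjoinRoot f} (ha : GF F f a) (n : ℕ) : GF F f (a ^ n) := by
  induction n with
  | zero => rw [pow_zero]; exact GF.one
  | succ n ih => rw [pow_succ]; exact ih.mul ha

variable (f)

theorem gf_root : GF F f (AdjoinRoot.root f) := by
  refine ⟨⊥, inferInstance, ?_⟩
  intro τ _ x z hz hz'
  rw [ev_root, ev_root]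

theorem gf_X : GF F f (AdjoinRoot.of f Polynomial.X) := by
  refine ⟨⊥, inferInstance, ?_⟩
  intro τ _ x z hz hz'
  rw [ev_of, ev_of, Polynomial.eval_X, Polynomial.eval_X]

variable [Algebra.IsAlgebraic F K]

theorem gf_C (c : K) : GF F f (AdjoinRoot.of f (Polynomial.C c)) := by
  refine ⟨IntermediateField.adjoin F {c}, ?_, ?_⟩
  · exact IntermediateField.adjoin.finiteDimensional
      (Algebra.IsAlgebraic.isAlgebraic (R := F) c).isIntegral
  · intro τ hτ x z hz hz'
    rw [ev_of, ev_of, Polynomial.eval_C, Polynomial.eval_C]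
    exact (IntermediateField.mem_fixingSubgroup_iff _ τ).mp hτ c
      (IntermediateField.mem_adjoin_simple_self F c)

theorem gf_of (p : Polynomial K) : GF F f (AdjoinRoot.of f p) := by
  induction p using Polynomial.induction_on' with
  | add p q hp hq => rw [map_add]; exact hp.add hq
  | monomial n c =>
    rw [← Polynomial.C_mul_X_pow_eq_monomial, map_mul, map_pow]
    exact (gf_C f c).mul ((gf_X f).pow n)

/-- values of a function on the curve are equivariant over a finite extension -/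
theorem gf_all (w : AdjoinRoot f) : GF F f w := by
  obtain ⟨p, rfl⟩ := AdjoinRoot.mk_surjective w
  induction p using Polynomial.induction_on' with
  | add p q hp hq => rw [map_add]; exact hp.add hq
  | monomial n a =>
    rw [← Polynomial.C_mul_X_pow_eq_monomial, map_mul, map_pow, AdjoinRoot.mk_X,
      AdjoinRoot.mk_C]
    exact (gf_of f a).mul ((gf_root f).pow n)

/-- the same on the open part -/
theorem gfh_all (w : PlaneRing f h) : ∃ L : IntermediateField F K, FiniteDimensional F L ∧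
    ∀ τ ∈ L.fixingSubgroup, ∀ (x z : K) (hz : (fib f x).eval z = 0) (hx : h.eval x ≠ 0)
      (hz' : (fib f (τ x)).eval (τ z) = 0) (hx' : h.eval (τ x) ≠ 0),
      τ (evh f h x z hz hx w) = evh f h (τ x) (τ z) hz' hx' w := by
  obtain ⟨n, a, ha⟩ := IsLocalization.Away.surj (AdjoinRoot.of f h) w
  obtain ⟨L, hL, h1⟩ := gf_all (F := F) f a
  obtain ⟨L', hL', h2⟩ := gf_all (F := F) f (AdjoinRoot.of f h)
  refine ⟨L ⊔ L', inferInstance, ?_⟩
  intro τ hτ x z hz hx hz' hx'
  have h3 := h1 τ (fix_sup_left hτ) x z hz hz'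
  have h4 := h2 τ (fix_sup_right hτ) x z hz hz'
  have h5 := congrArg (evh f h x z hz hx) ha
  have h6 := congrArg (evh f h (τ x) (τ z) hz' hx') ha
  rw [map_mul, map_pow, evh_algebraMap, evh_algebraMap] at h5 h6
  have h7 := congrArg τ h5
  rw [map_mul, map_pow, h3, h4, ← h6] at h7
  refine mul_right_cancel₀ (pow_ne_zero n ?_) h7
  rw [ev_of]
  exact hx'

/-- finitely many functions at once -/
theorem gfh_finset (s : Finset (PlaneRing f h)) : ∃ L : IntermediateField F K,
    FiniteDimensional F L ∧ ∀ w ∈ s, ∀ τ ∈ L.fixingSubgroup, ∀ (x z : K)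
      (hz : (fib f x).eval z = 0) (hx : h.eval x ≠ 0)
      (hz' : (fib f (τ x)).eval (τ z) = 0) (hx' : h.eval (τ x) ≠ 0),
      τ (evh f h x z hz hx w) = evh f h (τ x) (τ z) hz' hx' w := by
  classical
  induction s using Finset.induction_on with
  | empty => exact ⟨⊥, inferInstance, by simp⟩
  | insert a s ha ih =>
    obtain ⟨L, hL, h1⟩ := ih
    obtain ⟨L', hL', h2⟩ := gfh_all (F := F) f h a
    refine ⟨L ⊔ L', inferInstance, ?_⟩
    intro w hw τ hτ x z hz hx hz' hx'
    rcases Finset.mem_insert.mp hw with rfl | hw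
    · exact h2 τ (fix_sup_right hτ) x z hz hx hz' hx'
    · exact h1 w hw τ (fix_sup_left hτ) x z hz hx hz' hx'

variable {A : Over (Spec (.of F))} (δ : SO F (PlaneRing f h) ⟶ A)

/-- equivariance of the values of a morphism where a given function does not vanish -/
def GM (g : PlaneRing f h) : Prop :=
  ∃ L : IntermediateField F K, FiniteDimensional F L ∧
    ∀ τ ∈ L.fixingSubgroup, ∀ (x z : K) (hz : (fib f x).eval z = 0) (hx : h.eval x ≠ 0)
      (hz' : (fib f (τ x)).eval (τ z) = 0) (hx' : h.eval (τ x) ≠ 0),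
      evh f h x z hz hx g ≠ 0 →
      SOm (τ : K →ₐ[F] K) ≫ SOm ((evh f h x z hz hx).restrictScalars F) ≫ δ =
        SOm ((evh f h (τ x) (τ z) hz' hx').restrictScalars F) ≫ δ

/-- the good functions form an ideal -/
def gmIdeal : Ideal (PlaneRing f h) where
  carrier := {g | GM f h δ g}
  zero_mem' := ⟨⊥, inferInstance, fun τ _ x z hz hx hz' hx' h0 => absurd (map_zero _) h0⟩
  add_mem' := by
    rintro a b ⟨L, hL, h1⟩ ⟨L', hL', h2⟩
    refine ⟨L ⊔ L', inferInstance, ?_⟩
    intro τ hτ x z hz hx hz' hx' h0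
    by_cases ha : evh f h x z hz hx a = 0
    · have hb : evh f h x z hz hx b ≠ 0 := by
        intro hb
        rw [map_add, ha, hb, add_zero] at h0
        exact h0 rfl
      exact h2 τ (fix_sup_right hτ) x z hz hx hz' hx' hb
    · exact h1 τ (fix_sup_left hτ) x z hz hx hz' hx' ha
  smul_mem' := by
    rintro a b ⟨L, hL, h1⟩
    refine ⟨L, hL, ?_⟩
    intro τ hτ x z hz hx hz' hx' h0
    refine h1 τ hτ x z hz hx hz' hx' ?_
    intro hb
    apply h0
    rw [smul_eq_mul, map_mul, hb, mul_zero]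

theorem gm_one [LocallyOfFiniteType A.hom] : GM f h δ 1 := by
  classical
  change (1 : PlaneRing f h) ∈ gmIdeal f h δ
  rw [← Ideal.eq_top_iff_one]
  by_contra hne
  obtain ⟨m, hm, hle⟩ := Ideal.exists_le_maximal _ hne
  let p : PrimeSpectrum (PlaneRing f h) := ⟨m, hm.isPrime⟩
  obtain ⟨B, _, _, j, hj, ha, hft⟩ := exists_chart A (δ.left p)
  have hft' : Algebra.FiniteType F B := hft inferInstance
  obtain ⟨g, hg, Φ, hΦ⟩ := exists_local_prime j δ p ha
  apply hg
  apply hle
  obtain ⟨s, hs⟩ := hft'.out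
  have hnum : ∀ b : B, ∃ (n : ℕ) (a : PlaneRing f h),
      Φ b * algebraMap (PlaneRing f h) (Localization.Away g) g ^ n = algebraMap _ _ a :=
    fun b => IsLocalization.Away.surj g (Φ b)
  choose n a ha using hnum
  obtain ⟨L, hL, hLw⟩ := gfh_finset (F := F) f h (insert g (s.image a))
  refine ⟨L, hL, ?_⟩
  intro τ hτ x z hz hx hz' hx' h0
  have hg1 := hLw g (Finset.mem_insert_self _ _) τ hτ x z hz hx hz' hx'
  have h0' : evh f h (τ x) (τ z) hz' hx' g ≠ 0 := by
    rw [← hg1]
    exact (map_ne_zero τ).mpr h0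
  have hpt : ∀ (x z : K) (hz : (fib f x).eval z = 0) (hx : h.eval x ≠ 0),
      evh f h x z hz hx g ≠ 0 →
      ∃ φ : B →ₐ[F] K, SOm φ ≫ j = SOm ((evh f h x z hz hx).restrictScalars F) ≫ δ ∧
        ∀ b, φ b * evh f h x z hz hx g ^ n b = evh f h x z hz hx (a b) := by
    intro x z hz hx hgx
    obtain ⟨π', hπ'⟩ := ext_away g ((evh f h x z hz hx).restrictScalars F) (Ne.isUnit hgx)
    refine ⟨π'.comp Φ, ?_, fun b => ?_⟩
    · rw [← SOm_comp, Category.assoc, hΦ, ← Category.assoc, SOm_comp, hπ']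
    · have h2 := congrArg π' (ha b)
      have h3 : ∀ w : PlaneRing f h, π' (algebraMap (PlaneRing f h) (Localization.Away g) w) =
          evh f h x z hz hx w :=
        fun w => congrArg (fun t : PlaneRing f h →ₐ[F] K => t w) hπ'
      rw [map_mul, map_pow, h3, h3] at h2
      exact h2
  obtain ⟨φ, hφ, hφa⟩ := hpt x z hz hx h0
  obtain ⟨φ', hφ', hφa'⟩ := hpt (τ x) (τ z) hz' hx' h0'
  have hcomp : (τ : K →ₐ[F] K).comp φ = φ' := by
    apply AlgHom.ext_of_adjoin_eq_top hs
    intro b hb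
    have h1 := hLw (a b) (Finset.mem_insert_of_mem (Finset.mem_image_of_mem a hb)) τ hτ
      x z hz hx hz' hx'
    rw [← hφa b, ← hφa' b, map_mul, map_pow, hg1] at h1
    exact mul_right_cancel₀ (pow_ne_zero _ h0') h1
  rw [← hφ, ← hφ', ← hcomp, ← Category.assoc, SOm_comp]

/-- the field of the coefficients of `f` -/
theorem exists_field_coeff2 : ∃ L : IntermediateField F K, FiniteDimensional F L ∧
    ∀ i j, (f.coeff i).coeff j ∈ L := by
  classical
  have key : ∀ s : Finset ℕ, ∃ L : IntermediateField F K, FiniteDimensional F L ∧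
      ∀ i ∈ s, ∀ j, (f.coeff i).coeff j ∈ L := by
    intro s
    induction s using Finset.induction_on with
    | empty => exact ⟨⊥, inferInstance, by simp⟩
    | insert a s ha ih =>
      obtain ⟨L, hL, h1⟩ := ih
      obtain ⟨L', hL', h2⟩ := exists_field_coeff (F := F) (f.coeff a)
      refine ⟨L ⊔ L', inferInstance, ?_⟩
      intro i hi j
      rcases Finset.mem_insert.mp hi with rfl | hi
      · exact (le_sup_right : L' ≤ L ⊔ L') (h2 j)
      · exact (le_sup_left : L ≤ L ⊔ L') (h1 i hi j)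
  obtain ⟨L, hL, h1⟩ := key f.support
  refine ⟨L, hL, fun i j => ?_⟩
  by_cases hi : i ∈ f.support
  · exact h1 i hi j
  · rw [Polynomial.notMem_support_iff.mp hi, Polynomial.coeff_zero]
    exact zero_mem _

end

section

variable {F K : Type} [Field F] [Field K] [Algebra F K]

theorem eval_fix (L : IntermediateField F K) (p : Polynomial K) (hp : ∀ j, p.coeff j ∈ L)
    (τ : K ≃ₐ[F] K) (hτ : τ ∈ L.fixingSubgroup) (x : K) : p.eval (τ x) = τ (p.eval x) := by
  rw [Polynomial.eval_eq_sum_range, Polynomial.eval_eq_sum_range, map_sum]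
  refine Finset.sum_congr rfl fun i _ => ?_
  rw [map_mul, map_pow, (IntermediateField.mem_fixingSubgroup_iff _ τ).mp hτ _ (hp i)]

theorem fib_fix (L : IntermediateField F K) (f : Polynomial (Polynomial K))
    (hf : ∀ i j, (f.coeff i).coeff j ∈ L) (τ : K ≃ₐ[F] K) (hτ : τ ∈ L.fixingSubgroup) (x z : K) :
    (fib f (τ x)).eval (τ z) = τ ((fib f x).eval z) := by
  unfold fib
  rw [Polynomial.eval_map, Polynomial.eval_map, Polynomial.eval₂_eq_sum_range,
    Polynomial.eval₂_eq_sum_range, map_sum]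
  refine Finset.sum_congr rfl fun i _ => ?_
  rw [map_mul, map_pow, Polynomial.coe_evalRingHom, Polynomial.coe_evalRingHom,
    eval_fix L _ (hf i) τ hτ]

end

theorem pf_FLD : T_FLD := by
  classical
  intro F K _ _ _ _ A _ _ f h δ
  obtain ⟨L, hL, h1⟩ := gm_one f h δ
  obtain ⟨L1, hL1, h2⟩ := exists_field_coeff2 (F := F) f
  obtain ⟨L2, hL2, h3⟩ := exists_field_coeff (F := F) h
  refine ⟨L ⊔ (L1 ⊔ L2), inferInstance, ?_, ?_⟩
  · intro i j
    exact (le_sup_right : (L1 ⊔ L2) ≤ L ⊔ (L1 ⊔ L2)) ((le_sup_left : L1 ≤ L1 ⊔ L2) (h2 i j))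
  · intro τ hτ x z hz
    have hτ1 : τ ∈ L1.fixingSubgroup := fix_sup_left (fix_sup_right hτ)
    have hτ2 : τ ∈ L2.fixingSubgroup := fix_sup_right (fix_sup_right hτ)
    have hz' : (fib f (τ x)).eval (τ z) = 0 := by
      rw [fib_fix L1 f h2 τ hτ1, hz, map_zero]
    have hxh : h.eval (τ x) = τ (h.eval x) := eval_fix L2 h h3 τ hτ2 x
    by_cases hx : h.eval x = 0
    · have e1 : val δ x z = 1 := dif_neg fun H => H.2 hx
      have e2 : val δ (τ x) (τ z) = 1 := dif_neg fun H => H.2 (by rw [hxh, hx, map_zero])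
      rw [e1, e2]
      exact MonObj.comp_one _
    · have hx' : h.eval (τ x) ≠ 0 := by
        rw [hxh]
        exact (map_ne_zero τ).mpr hx
      have e1 : val δ x z = specMap ((evh f h x z hz hx).restrictScalars F) ≫ δ :=
        dif_pos ⟨hz, hx⟩
      have e2 : val δ (τ x) (τ z) =
          specMap ((evh f h (τ x) (τ z) hz' hx').restrictScalars F) ≫ δ := dif_pos ⟨hz', hx'⟩
      rw [e1, e2]
      exact h1 τ (fix_sup_left hτ) x z hz hx hz' hx' (by rw [map_one]; exact one_ne_zero)

end Pool.Agent.H91.LA
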